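import Mathlib
import Pool.Agent.H.MP_397872_lc.FO2
import Pool.Agent.H.MP_397872_lc.Sentences

namespace Pool.Agent.Results.MP_397872_lc.LeastTwo

open Pool.Agent.H.MP_397872_lc

/-- The least `n` such that some sentence of the language of rings in prenex form, with `n`
alternating blocks of quantifiers the first of which is existential, separates the rational
function fields in one variable over the real algebraic numbers and over the reals, is `2`. -/
theorem result : IsLeast {n : ℕ | ∃ φ : FirstOrder.Language.ring.Sentence, Alt true n φ ∧
    ¬ (Holds (RatFunc (algebraicClosure ℚ ℝ)) φ ↔ Holds (RatFunc ℝ) φ)} 2 :=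
  isLeast_two

end Pool.Agent.Results.MP_397872_lc.LeastTwo
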